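import Pool.Agent.helper67.GV.Spec

/-!
# gv:MLT (MP_89787e_co): the mean of the increments in the direction of the long side of a box
-/

set_option autoImplicit false

open Finset Filter Topology

namespace Pool.Agent.helper67.GV

open Pool.Agent.helper21.GR

theorem MLT_add {T : ℕ} (H : (Fin T → ℕ) → ℝ) (C : ℝ)
    (hH : ∀ x a, H (x + Pi.single a 1) ≤ H x + C) (z : Fin T → ℕ) :
    ∀ (m : ℕ) (y : Fin T → ℕ), ∑ j, y j = m → H (z + y) ≤ H z + C * m := by
  intro m
  induction m with
  | zero =>
    intro y hy
    have h0 : y = 0 := by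
      funext j
      exact (Finset.sum_eq_zero_iff.1 hy) j (mem_univ j)
    subst h0
    simp
  | succ m ih =>
    intro y hy
    obtain ⟨j, hj⟩ : ∃ j, 0 < y j := by
      by_contra hcon
      have h1 : ∑ j, y j = 0 := Finset.sum_eq_zero fun j _ => by
        by_contra h2
        exact hcon ⟨j, Nat.pos_of_ne_zero h2⟩
      omega
    have hy' : y = Function.update y j (y j - 1) + Pi.single j 1 := by
      funext i
      by_cases hi : i = j
      · subst hi
        simp only [Pi.add_apply, Function.update_self, Pi.single_eq_same]
        omega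
      · simp [Pi.add_apply, Function.update_of_ne hi, Pi.single_eq_of_ne hi]
    have hs : ∑ i, Function.update y j (y j - 1) i = m := by
      have h1 : ∑ i, y i = ∑ i, Function.update y j (y j - 1) i + ∑ i, (Pi.single j 1 : Fin T → ℕ) i := by
        conv_lhs => rw [hy']
        rw [← Finset.sum_add_distrib]
        rfl
      have h2 : ∑ i, (Pi.single j 1 : Fin T → ℕ) i = 1 := by
        rw [Finset.sum_eq_single j]
        · simp
        · intro i _ hi
          simp [Pi.single_eq_of_ne hi]
        · intro h
          exact absurd (mem_univ j) h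
      omega
    have h3 := ih _ hs
    have h4 := hH (z + Function.update y j (y j - 1)) j
    rw [hy', ← add_assoc]
    push_cast
    linarith

theorem MLT (hTEL : TEL_stmt) (hBXC : BXC_stmt) : MLT_stmt := by
  intro T n H C b N hn hN hC hH0 hHC
  unfold mean
  have h1 : ∑ x ∈ box n, (fun x => H (x + Pi.single b 1) - H x) x =
      ∑ y ∈ box (Function.update n b 1), (H (y + Pi.single b (n b)) - H y) := hTEL T n H b
  have h2 := (hBXC T n b).1
  have h3 := ((hBXC T n b).2 hn).2
  have h4 : ∀ y ∈ box (Function.update n b 1), H (y + Pi.single b (n b)) - H y ≤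
      H (Pi.single b (n b)) + C * T * N := by
    intro y hy
    unfold box at hy
    rw [Fintype.mem_piFinset] at hy
    have hyN : ∀ j, y j ≤ N := by
      intro j
      have h5 := hy j
      rw [mem_range] at h5
      by_cases hj : j = b
      · subst hj
        rw [Function.update_self] at h5
        omega
      · rw [Function.update_of_ne hj] at h5
        have := hN j hj
        omega
    have hs : ∑ j, y j ≤ T * N := by
      calc ∑ j, y j ≤ ∑ _j : Fin T, N := Finset.sum_le_sum fun j _ => hyN j
        _ = T * N := by simp
    have h6 := MLT_add H C hHC (Pi.single b (n b)) (∑ j, y j) y rfl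
    rw [add_comm (Pi.single b (n b)) y] at h6
    have h7 : C * ((∑ j, y j : ℕ) : ℝ) ≤ C * T * N := by
      rw [mul_assoc]
      apply mul_le_mul_of_nonneg_left _ hC
      exact_mod_cast hs
    have h8 := hH0 y
    linarith
  rw [h1, h2]
  have hc : (0 : ℝ) < ((box (Function.update n b 1)).card : ℝ) := by exact_mod_cast h3
  have hb : (0 : ℝ) < (n b : ℝ) := by exact_mod_cast hn b
  have h9 : ∑ y ∈ box (Function.update n b 1), (H (y + Pi.single b (n b)) - H y) ≤
      ((box (Function.update n b 1)).card : ℝ) * (H (Pi.single b (n b)) + C * T * N) := by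
    rw [← nsmul_eq_mul]
    exact Finset.sum_le_card_nsmul _ _ _ h4
  push_cast
  rw [div_le_div_iff₀ (mul_pos hb hc) hb]
  nlinarith [mul_le_mul_of_nonneg_right h9 hb.le]

end Pool.Agent.helper67.GV
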