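import Pool.Agent.helper67.GV.Spec

/-!
# gv:TEL (MP_89787e_co): telescoping in one direction of a box
-/

set_option autoImplicit false

open Finset Filter Topology

namespace Pool.Agent.helper67.GV

open Pool.Agent.helper21.GR

theorem TEL_mem {T : ℕ} (n : Fin T → ℕ) (b : Fin T) (k : ℕ) (x : Fin T → ℕ) :
    x ∈ box (Function.update n b k) ↔ x b < k ∧ ∀ j, j ≠ b → x j < n j := by
  unfold box
  rw [Fintype.mem_piFinset]
  constructor
  · intro h
    refine ⟨?_, fun j hj => ?_⟩
    · have h1 := h b
      rw [mem_range, Function.update_self] at h1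
      exact h1
    · have h1 := h j
      rw [mem_range, Function.update_of_ne hj] at h1
      exact h1
  · rintro ⟨h1, h2⟩ j
    rw [mem_range]
    by_cases hj : j = b
    · subst hj
      rw [Function.update_self]
      exact h1
    · rw [Function.update_of_ne hj]
      exact h2 j hj

theorem TEL_box {T : ℕ} (n : Fin T → ℕ) (b : Fin T) (m : ℕ) :
    box (Function.update n b (m + 1)) = box (Function.update n b m) ∪
      (box (Function.update n b 1)).image fun y => y + Pi.single b m := by
  ext x
  rw [mem_union, TEL_mem, TEL_mem, mem_image]
  constructor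
  · rintro ⟨h1, h2⟩
    by_cases h : x b < m
    · exact Or.inl ⟨h, h2⟩
    · right
      have hb : x b = m := by omega
      refine ⟨Function.update x b 0, ?_, ?_⟩
      · rw [TEL_mem]
        refine ⟨by rw [Function.update_self]; exact Nat.one_pos, fun j hj => ?_⟩
        rw [Function.update_of_ne hj]
        exact h2 j hj
      · funext j
        by_cases hj : j = b
        · subst hj
          simp [hb]
        · simp [Function.update_of_ne hj, Pi.single_eq_of_ne hj]
  · rintro (⟨h1, h2⟩ | ⟨y, hy, rfl⟩)
    · exact ⟨by omega, h2⟩
    · rw [TEL_mem] at hy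
      refine ⟨?_, fun j hj => ?_⟩
      · simp only [Pi.add_apply, Pi.single_eq_same]
        omega
      · simp only [Pi.add_apply, Pi.single_eq_of_ne hj, add_zero]
        exact hy.2 j hj

theorem TEL_disj {T : ℕ} (n : Fin T → ℕ) (b : Fin T) (m : ℕ) :
    Disjoint (box (Function.update n b m))
      ((box (Function.update n b 1)).image fun y => y + Pi.single b m) := by
  rw [Finset.disjoint_left]
  intro x hx hx'
  obtain ⟨y, _, rfl⟩ := mem_image.1 hx'
  rw [TEL_mem] at hx
  have h1 := hx.1
  simp only [Pi.add_apply, Pi.single_eq_same] at h1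
  omega

theorem TEL_gen {T : ℕ} (n : Fin T → ℕ) (f : (Fin T → ℕ) → ℝ) (b : Fin T) (m : ℕ) :
    ∑ x ∈ box (Function.update n b m), (f (x + Pi.single b 1) - f x) =
      ∑ y ∈ box (Function.update n b 1), (f (y + Pi.single b m) - f y) := by
  induction m with
  | zero =>
    have h0 : box (Function.update n b 0) = ∅ := by
      ext x
      rw [TEL_mem]
      constructor
      · rintro ⟨h, _⟩
        omega
      · intro h
        exact absurd h (Finset.notMem_empty x)
    rw [h0, Finset.sum_empty]
    symm
    apply Finset.sum_eq_zero
    intro y _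
    rw [Pi.single_zero, add_zero, sub_self]
  | succ m ih =>
    rw [TEL_box, Finset.sum_union (TEL_disj n b m), ih, Finset.sum_image, ← Finset.sum_add_distrib]
    · apply Finset.sum_congr rfl
      intro y _
      have h1 : y + Pi.single b m + Pi.single b 1 = y + Pi.single b (m + 1) := by
        rw [add_assoc, ← Pi.single_add]
      rw [h1]
      ring
    · intro y _ y' _ h
      exact add_right_cancel h

theorem TEL : TEL_stmt := by
  intro T n f b
  have h := TEL_gen n f b (n b)
  rw [Function.update_eq_self] at h
  exact h

end Pool.Agent.helper67.GV
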